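import Pool.Agent.H28.PT4.Deg
import Pool.Agent.H72.PB.HTwist

/-!
# THEOREM GX: the Kummer part

`OO L α`: the conjugates of the unit `α` over `L`. `kum`: `T` a saturated subgroup stable under `G = Gal(Ω/L)` such that `g x / x` is a root of unity for `x ∈ T`, `L` contains the roots of unity; if there are at most `M` classes of conjugates of `α` modulo `T`, then there is `N ≥ 1`, `N ≤ [L(α):L]`, with `[L(α^N):L] ≤ M`.
-/

set_option autoImplicit false
set_option linter.unusedSectionVars false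

open NumberField IntermediateField

namespace Pool.Agent.H72.GX

open Pool.Agent.H11.TS Pool.Agent.H28.PT4

variable {K Ω : Type} [Field K] [Field Ω] [CharZero Ω] [IsAlgClosed Ω] [Algebra K Ω] [IsGalois K Ω]

/-- the conjugates of the unit `α` over `L` -/
def OO (L : IntermediateField K Ω) (α : Ωˣ) : Set Ωˣ :=
  Set.range fun g : L.fixingSubgroup => g • α

theorem smul_val (L : IntermediateField K Ω) (g : L.fixingSubgroup) (x : Ωˣ) :
    ((g • x : Ωˣ) : Ω) = (g : Ω ≃ₐ[K] Ω) (x : Ω) := rfl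

theorem deg_OO (L : IntermediateField K Ω) (α : Ωˣ) :
    degP L (fun _ : Fin 1 => α) = (OO L α).ncard := by
  rw [degP_eq]
  unfold dgT
  have h1 : OrbT L (fun _ : Fin 1 => (α : Ω)) = (fun x : Ωˣ => fun _ : Fin 1 => (x : Ω)) '' OO L α := by
    ext y
    constructor
    · rintro ⟨ρ, hρ, rfl⟩
      have hmem : ρ ∈ L.fixingSubgroup := by
        rw [IntermediateField.mem_fixingSubgroup_iff]
        exact hρ
      exact ⟨(⟨ρ, hmem⟩ : L.fixingSubgroup) • α, ⟨⟨ρ, hmem⟩, rfl⟩, rfl⟩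
    · rintro ⟨_, ⟨g, rfl⟩, rfl⟩
      exact ⟨g, (IntermediateField.mem_fixingSubgroup_iff L _).1 g.2, rfl⟩
  rw [h1]
  refine Set.ncard_image_of_injective _ ?_
  intro x y h
  exact Units.ext (congrFun h 0)

theorem OO_fin (L : IntermediateField K Ω) (α : Ωˣ) : (OO L α).Finite := by
  have h1 : (minpoly K (α : Ω)) ≠ 0 := minpoly.ne_zero (Algebra.IsIntegral.isIntegral (R := K) (α : Ω))
  have h2 : ((fun x : Ωˣ => (x : Ω)) '' OO L α).Finite := by
    refine Set.Finite.subset ((minpoly K (α : Ω)).rootSet_finite Ω) ?_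
    rintro _ ⟨_, ⟨g, rfl⟩, rfl⟩
    rw [Polynomial.mem_rootSet]
    refine ⟨h1, ?_⟩
    show Polynomial.aeval ((g : Ω ≃ₐ[K] Ω) (α : Ω)) (minpoly K (α : Ω)) = 0
    rw [Polynomial.aeval_algEquiv, AlgHom.comp_apply, minpoly.aeval]
    exact map_zero _
  exact Set.Finite.of_finite_image h2 (fun x _ y _ h => Units.ext h)

theorem mem_OO (L : IntermediateField K Ω) (α : Ωˣ) : α ∈ OO L α := ⟨1, one_smul _ α⟩

theorem smul_OO (L : IntermediateField K Ω) (α : Ωˣ) (g : L.fixingSubgroup) (x : Ωˣ)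
    (hx : x ∈ OO L α) : g • x ∈ OO L α := by
  obtain ⟨h, rfl⟩ := hx
  exact ⟨g * h, mul_smul g h α⟩

/-- a function of the classes -/
theorem ncard_factor {G A B : Type} (F : G → A) (C : G → B) (hC : (Set.range C).Finite)
    (h : ∀ g g' : G, C g = C g' → F g = F g') : (Set.range F).ncard ≤ (Set.range C).ncard := by
  classical
  rcases isEmpty_or_nonempty G with he | ⟨⟨g₀⟩⟩
  · rw [Set.range_eq_empty, Set.ncard_empty]
    exact Nat.zero_le _
  have hsub : Set.range F ⊆ (fun c => F (if hc : ∃ g, C g = c then hc.choose else g₀)) '' Set.range C := by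
    rintro _ ⟨g, rfl⟩
    refine ⟨C g, ⟨g, rfl⟩, ?_⟩
    have hc : ∃ g', C g' = C g := ⟨g, rfl⟩
    show F (if hc : ∃ g', C g' = C g then hc.choose else g₀) = F g
    rw [dif_pos hc]
    exact h _ _ hc.choose_spec
  exact (Set.ncard_le_ncard hsub (hC.image _)).trans (Set.ncard_image_le hC)

theorem kum (L : IntermediateField K Ω) (T : Subgroup Ωˣ)
    (hμ : ∀ x : Ωˣ, ∀ j : ℕ, 1 ≤ j → x ^ j = 1 → (x : Ω) ∈ L)
    (hμT : ∀ x : Ωˣ, ∀ j : ℕ, 1 ≤ j → x ^ j = 1 → x ∈ T)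
    (hGT : ∀ g : L.fixingSubgroup, ∀ x ∈ T, g • x ∈ T)
    (hfix : ∀ g : L.fixingSubgroup, ∀ x ∈ T, ∃ j : ℕ, 1 ≤ j ∧ (g • x / x) ^ j = 1)
    (α : Ωˣ) (M : ℕ)
    (hM : (Set.range fun g : L.fixingSubgroup => ((g • α : Ωˣ) : Ωˣ ⧸ T)).ncard ≤ M) :
    ∃ N : ℕ, 1 ≤ N ∧ N ≤ degP L (fun _ : Fin 1 => α) ∧ degP L (fun _ : Fin 1 => α ^ N) ≤ M := by
  classical
  -- roots of unity are fixed
  have hfx : ∀ (g : L.fixingSubgroup) (x : Ωˣ) (j : ℕ), 1 ≤ j → x ^ j = 1 → g • x = x := by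
    intro g x j hj hx
    apply Units.ext
    rw [smul_val]
    exact (IntermediateField.mem_fixingSubgroup_iff L _).1 g.2 _ (hμ x j hj hx)
  -- the kernel acts by roots of unity
  have htor : ∀ g : L.fixingSubgroup, g • α / α ∈ T → ∃ j : ℕ, 1 ≤ j ∧ (g • α / α) ^ j = 1 := by
    intro g hg
    obtain ⟨c, hc⟩ : ∃ c : Ωˣ, c = g • α / α := ⟨_, rfl⟩
    rw [← hc] at hg ⊢
    have hgα : g • α = α * c := by
      rw [hc, mul_div_cancel]
    have hstep : ∀ j : ℕ, ∃ t : Ωˣ, (∃ i : ℕ, 1 ≤ i ∧ t ^ i = 1) ∧ g ^ j • α = α * c ^ j * t := by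
      intro j
      induction j with
      | zero => exact ⟨1, ⟨1, le_rfl, one_pow _⟩, by simp⟩
      | succ j ih =>
        obtain ⟨t, ⟨i, hi, hti⟩, ht⟩ := ih
        obtain ⟨i', hi', hi2⟩ := hfix g c hg
        obtain ⟨u, hu⟩ : ∃ u : Ωˣ, u = g • c / c := ⟨_, rfl⟩
        rw [← hu] at hi2
        have hgc : g • c = c * u := by
          rw [hu, mul_div_cancel]
        refine ⟨u ^ j * t, ⟨i' * i, Nat.mul_pos hi' hi, ?_⟩, ?_⟩
        · rw [mul_pow, ← pow_mul, mul_comm j, mul_assoc i' i j, pow_mul, hi2, one_pow, one_mul, mul_comm i' i, pow_mul,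
            hti, one_pow]
        · rw [pow_succ', mul_smul, ht, smul_mul', smul_mul', smul_pow', hgα, hgc, hfx g t i hi hti, mul_pow, pow_succ]
          simp only [mul_assoc, mul_comm, mul_left_comm]
    -- a power of `g` fixes `α`
    obtain ⟨j, hj, hjα⟩ : ∃ j : ℕ, 1 ≤ j ∧ g ^ j • α = α := by
      have hfin := OO_fin L α
      have hmaps : Set.MapsTo (fun j : ℕ => g ^ j • α) Set.univ (OO L α) := fun j _ => ⟨g ^ j, rfl⟩
      obtain ⟨a, -, b, -, hne, hab⟩ := Set.infinite_univ.exists_ne_map_eq_of_mapsTo hmaps hfin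
      rcases lt_or_gt_of_ne hne with h | h
      · refine ⟨b - a, by omega, ?_⟩
        have h1 : g ^ b • α = g ^ a • g ^ (b - a) • α := by
          rw [← mul_smul, ← pow_add]
          congr 2
          omega
        have h2 : g ^ a • α = g ^ a • g ^ (b - a) • α := hab.trans h1
        exact (MulAction.injective (g ^ a) h2).symm
      · refine ⟨a - b, by omega, ?_⟩
        have h1 : g ^ a • α = g ^ b • g ^ (a - b) • α := by
          rw [← mul_smul, ← pow_add]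
          congr 2
          omega
        have h2 : g ^ b • α = g ^ b • g ^ (a - b) • α := hab.symm.trans h1
        exact (MulAction.injective (g ^ b) h2).symm
    obtain ⟨t, ⟨i, hi, hti⟩, ht⟩ := hstep j
    rw [hjα] at ht
    have h3 : c ^ j * t = 1 := by
      have h4 : α * (c ^ j * t) = α * 1 := by rw [mul_one, ← mul_assoc]; exact ht.symm
      exact mul_left_cancel h4
    refine ⟨j * i, Nat.mul_pos hj hi, ?_⟩
    have h5 : c ^ j = t⁻¹ := eq_inv_of_mul_eq_one_left h3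
    rw [pow_mul, h5, inv_pow, hti, inv_one]
  -- the group of the roots of unity
  let Z : Subgroup Ωˣ :=
    { carrier := {z | (∃ j : ℕ, 1 ≤ j ∧ z ^ j = 1) ∧ ∃ g : L.fixingSubgroup, g • α = z * α}
      one_mem' := ⟨⟨1, le_rfl, one_pow _⟩, 1, by rw [one_smul, one_mul]⟩
      mul_mem' := by
        rintro x y ⟨⟨i, hi, hxi⟩, g, hg⟩ ⟨⟨j, hj, hyj⟩, h, hh⟩
        refine ⟨⟨i * j, Nat.mul_pos hi hj, by rw [mul_pow, pow_mul, hxi, one_pow, one_mul, mul_comm i j, pow_mul, hyj,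
          one_pow]⟩, g * h, ?_⟩
        rw [mul_smul, hh, smul_mul', hg, hfx g y j hj hyj]
        simp only [mul_comm, mul_left_comm]
      inv_mem' := by
        rintro x ⟨⟨i, hi, hxi⟩, g, hg⟩
        refine ⟨⟨i, hi, by rw [inv_pow, hxi, inv_one]⟩, g⁻¹, ?_⟩
        have h1 : g⁻¹ • (g • α) = g⁻¹ • (x * α) := by rw [hg]
        rw [inv_smul_smul, smul_mul', hfx g⁻¹ x i hi hxi] at h1
        exact eq_inv_mul_of_mul_eq h1.symm }
  have hZf : (Z : Set Ωˣ).Finite := by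
    refine Set.Finite.of_finite_image (f := fun z => z * α) ((OO_fin L α).subset ?_)
      (fun x _ y _ h => mul_right_cancel h)
    rintro _ ⟨z, ⟨-, g, hg⟩, rfl⟩
    exact ⟨g, hg⟩
  have hZfin : Finite Z := hZf.to_subtype
  obtain ⟨N, hN⟩ : ∃ N : ℕ, N = Nat.card Z := ⟨_, rfl⟩
  have hN1 : 1 ≤ N := by
    rw [hN]
    exact Nat.card_pos
  refine ⟨N, hN1, ?_, ?_⟩
  · rw [deg_OO, hN]
    have h1 : Nat.card Z = ((fun z : Ωˣ => z * α) '' (Z : Set Ωˣ)).ncard := by
      rw [Set.ncard_image_of_injective _ (fun x y h => mul_right_cancel h)]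
      rfl
    rw [h1]
    refine Set.ncard_le_ncard ?_ (OO_fin L α)
    rintro _ ⟨z, ⟨-, g, hg⟩, rfl⟩
    exact ⟨g, hg⟩
  · rw [deg_OO]
    have hfinC : (Set.range fun g : L.fixingSubgroup => ((g • α : Ωˣ) : Ωˣ ⧸ T)).Finite := by
      have h1 : (Set.range fun g : L.fixingSubgroup => ((g • α : Ωˣ) : Ωˣ ⧸ T)) =
          (fun x : Ωˣ => (x : Ωˣ ⧸ T)) '' OO L α := by
        ext y
        constructor
        · rintro ⟨g, rfl⟩
          exact ⟨g • α, ⟨g, rfl⟩, rfl⟩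
        · rintro ⟨_, ⟨g, rfl⟩, rfl⟩
          exact ⟨g, rfl⟩
      rw [h1]
      exact (OO_fin L α).image _
    refine le_trans (ncard_factor (fun g : L.fixingSubgroup => g • α ^ N)
      (fun g : L.fixingSubgroup => ((g • α : Ωˣ) : Ωˣ ⧸ T)) hfinC ?_) hM
    intro g h hgh
    -- `h⁻¹ g` is in the kernel
    have h1 : (h • α)⁻¹ * (g • α) ∈ T := QuotientGroup.eq.1 hgh.symm
    have h2 : (h⁻¹ * g) • α / α ∈ T := by
      have h3 := hGT h⁻¹ _ h1
      rw [smul_mul', smul_inv', inv_smul_smul, ← mul_smul] at h3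
      rw [div_eq_mul_inv, mul_comm]
      exact h3
    obtain ⟨j, hj, hz⟩ := htor _ h2
    have hzZ : (h⁻¹ * g) • α / α ∈ Z := ⟨⟨j, hj, hz⟩, h⁻¹ * g, by rw [div_mul_cancel]⟩
    have hzN : ((h⁻¹ * g) • α / α) ^ N = 1 := by
      have h4 : (⟨_, hzZ⟩ : Z) ^ Nat.card Z = 1 := pow_card_eq_one'
      rw [hN]
      exact congrArg Subtype.val h4
    have h5 : (h⁻¹ * g) • α ^ N = α ^ N := by
      rw [smul_pow']
      rw [div_pow, div_eq_one] at hzN
      exact hzN
    calc g • α ^ N = h • (h⁻¹ * g) • α ^ N := by rw [← mul_smul, mul_inv_cancel_left]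
      _ = h • α ^ N := by rw [h5]

end Pool.Agent.H72.GX
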