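import Mathlib

/-!
# THEOREM GX: the numbers
-/

set_option autoImplicit false

namespace Pool.Agent.H72.GX

private theorem log_mul_le (m E : ℝ) (hm : 1 ≤ m) (hE : 1 ≤ E) :
    Real.log (3 * m * E) ≤ 2 * (1 + Real.log m) * (1 + Real.log E) ∧ 0 ≤ Real.log (3 * m * E) := by
  have h3 : Real.log 3 ≤ 2 := by
    have := Real.log_le_sub_one_of_pos (show (0 : ℝ) < 3 by norm_num)
    linarith
  have hlm := Real.log_nonneg hm
  have hlE := Real.log_nonneg hE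
  constructor
  · rw [Real.log_mul (by positivity) (by positivity), Real.log_mul (by norm_num) (by positivity)]
    nlinarith [mul_nonneg hlm hlE]
  · refine Real.log_nonneg ?_
    have : 1 ≤ m * E := one_le_mul_of_one_le_of_one_le hm hE
    nlinarith

/-- the independent case -/
theorem num_ind (A C : ℕ) (c : ℝ) (hc : 0 < c) : ∃ c' : ℝ, 0 < c' ∧
    ∀ (m D E : ℕ) (h : ℝ), 1 ≤ m → 1 ≤ D → 1 ≤ E → E ≤ D ^ A → 0 ≤ h →
      c ≤ (E : ℝ) ^ (1 / ((A + 1 : ℕ) : ℝ)) * Real.log (3 * m * E) ^ C * h →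
      c' ≤ (1 + Real.log m) ^ C * (D * h) := by
  obtain ⟨η, hη⟩ : ∃ η : ℝ, η = 1 / (((A : ℝ) + 1) * (C + 1)) := ⟨_, rfl⟩
  have hη0 : 0 < η := by
    rw [hη]
    positivity
  obtain ⟨B, hB⟩ : ∃ B : ℝ, B = 2 * (1 + A / η) := ⟨_, rfl⟩
  have hB0 : 0 < B := by
    rw [hB]
    have : 0 ≤ (A : ℝ) / η := div_nonneg (Nat.cast_nonneg _) hη0.le
    linarith
  refine ⟨c / B ^ C, by positivity, fun m D E h hm hD hE hED hh hle => ?_⟩
  have hmr : (1 : ℝ) ≤ m := by exact_mod_cast hm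
  have hDr : (1 : ℝ) ≤ D := by exact_mod_cast hD
  have hEr : (1 : ℝ) ≤ E := by exact_mod_cast hE
  have hD0 : (0 : ℝ) < D := by linarith
  have hEDr : (E : ℝ) ≤ (D : ℝ) ^ A := by exact_mod_cast hED
  have hlm := Real.log_nonneg hmr
  have hlD := Real.log_nonneg hDr
  obtain ⟨h1, h2⟩ := log_mul_le m E hmr hEr
  have h3 : Real.log E ≤ A * Real.log D := by
    have h4 := Real.log_le_log (by linarith) hEDr
    rwa [Real.log_pow] at h4
  have h5 : 1 + Real.log E ≤ (1 + A / η) * (D : ℝ) ^ η := by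
    have h6 : Real.log D ≤ (D : ℝ) ^ η / η := Real.log_le_rpow_div hD0.le hη0
    have h7 : 1 ≤ (D : ℝ) ^ η := Real.one_le_rpow hDr hη0.le
    have h8 : (A : ℝ) * Real.log D ≤ A * ((D : ℝ) ^ η / η) :=
      mul_le_mul_of_nonneg_left h6 (Nat.cast_nonneg _)
    have h9 : (A : ℝ) * ((D : ℝ) ^ η / η) = A / η * (D : ℝ) ^ η := by ring
    have h10 : (1 + A / η) * (D : ℝ) ^ η = (D : ℝ) ^ η + A / η * (D : ℝ) ^ η := by ring
    linarith
  have h6 : Real.log (3 * m * E) ≤ B * (1 + Real.log m) * (D : ℝ) ^ η := by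
    calc Real.log (3 * m * E) ≤ 2 * (1 + Real.log m) * (1 + Real.log E) := h1
      _ ≤ 2 * (1 + Real.log m) * ((1 + A / η) * (D : ℝ) ^ η) :=
          mul_le_mul_of_nonneg_left h5 (by linarith)
      _ = _ := by rw [hB]; ring
  have h7 : Real.log (3 * m * E) ^ C ≤ B ^ C * (1 + Real.log m) ^ C * (D : ℝ) ^ (1 / ((A : ℝ) + 1)) := by
    calc Real.log (3 * m * E) ^ C ≤ (B * (1 + Real.log m) * (D : ℝ) ^ η) ^ C := pow_le_pow_left₀ h2 h6 C
      _ = B ^ C * (1 + Real.log m) ^ C * (D : ℝ) ^ (η * C) := by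
          rw [mul_pow, mul_pow, Real.rpow_mul hD0.le, Real.rpow_natCast]
      _ ≤ _ := by
          refine mul_le_mul_of_nonneg_left (Real.rpow_le_rpow_of_exponent_le hDr ?_)
            (mul_nonneg (pow_nonneg hB0.le _) (pow_nonneg (by linarith) _))
          rw [hη, div_mul_eq_mul_div, one_mul, div_le_div_iff₀ (by positivity) (by positivity)]
          have hC0 : (0 : ℝ) ≤ C := Nat.cast_nonneg _
          have hA0 : (0 : ℝ) ≤ A := Nat.cast_nonneg _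
          nlinarith
  have h8 : (E : ℝ) ^ (1 / ((A + 1 : ℕ) : ℝ)) ≤ (D : ℝ) ^ ((A : ℝ) / ((A : ℝ) + 1)) := by
    calc (E : ℝ) ^ (1 / ((A + 1 : ℕ) : ℝ)) ≤ ((D : ℝ) ^ A) ^ (1 / ((A + 1 : ℕ) : ℝ)) :=
          Real.rpow_le_rpow (by linarith) hEDr (by positivity)
      _ = _ := by
          rw [← Real.rpow_natCast, ← Real.rpow_mul hD0.le]
          congr 1
          push_cast
          ring
  have h9 : (D : ℝ) ^ ((A : ℝ) / ((A : ℝ) + 1)) * (D : ℝ) ^ (1 / ((A : ℝ) + 1)) = D := by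
    rw [← Real.rpow_add hD0]
    have : (A : ℝ) / ((A : ℝ) + 1) + 1 / ((A : ℝ) + 1) = 1 := by
      have hA0 : (0 : ℝ) < (A : ℝ) + 1 := by positivity
      field_simp
    rw [this, Real.rpow_one]
  rw [div_le_iff₀ (by positivity)]
  calc c ≤ (E : ℝ) ^ (1 / ((A + 1 : ℕ) : ℝ)) * Real.log (3 * m * E) ^ C * h := hle
    _ ≤ (D : ℝ) ^ ((A : ℝ) / ((A : ℝ) + 1)) *
        (B ^ C * (1 + Real.log m) ^ C * (D : ℝ) ^ (1 / ((A : ℝ) + 1))) * h := by
        refine mul_le_mul_of_nonneg_right (mul_le_mul h8 h7 (pow_nonneg h2 _) ?_) hh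
        exact Real.rpow_nonneg hD0.le _
    _ = (1 + Real.log m) ^ C * (((D : ℝ) ^ ((A : ℝ) / ((A : ℝ) + 1)) *
        (D : ℝ) ^ (1 / ((A : ℝ) + 1))) * h) * B ^ C := by ring
    _ = _ := by rw [h9]

/-- the dependent case -/
theorem num_dep (M C : ℕ) (c : ℝ) (hc : 0 < c) : ∃ c' : ℝ, 0 < c' ∧
    ∀ (m D N E : ℕ) (h : ℝ), 1 ≤ m → N ≤ D → 1 ≤ E → E ≤ M → 0 ≤ h →
      c ≤ (E : ℝ) ^ (1 / ((1 : ℕ) : ℝ)) * Real.log (3 * m * E) ^ C * (N * h) →
      c' ≤ (1 + Real.log m) ^ C * (D * h) := by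
  rcases Nat.eq_zero_or_pos M with hM | hM
  · exact ⟨1, one_pos, fun m D N E h _ _ hE hEM => by omega⟩
  have hMr : (1 : ℝ) ≤ M := by exact_mod_cast hM
  have hlM := Real.log_nonneg hMr
  obtain ⟨B, hB⟩ : ∃ B : ℝ, B = M * (2 * (1 + Real.log M)) ^ C := ⟨_, rfl⟩
  have hB0 : 0 < B := by
    rw [hB]
    have : (0 : ℝ) < M := by linarith
    positivity
  refine ⟨c / B, by positivity, fun m D N E h hm hND hE hEM hh hle => ?_⟩
  have hmr : (1 : ℝ) ≤ m := by exact_mod_cast hm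
  have hEr : (1 : ℝ) ≤ E := by exact_mod_cast hE
  have hEMr : (E : ℝ) ≤ M := by exact_mod_cast hEM
  have hNDr : (N : ℝ) ≤ D := by exact_mod_cast hND
  have hlm := Real.log_nonneg hmr
  obtain ⟨h1, h2⟩ := log_mul_le m E hmr hEr
  have h3 : Real.log E ≤ Real.log M := Real.log_le_log (by linarith) hEMr
  have h4 : Real.log (3 * m * E) ≤ 2 * (1 + Real.log M) * (1 + Real.log m) := by
    refine h1.trans ?_
    nlinarith [mul_le_mul_of_nonneg_left h3 (by linarith : (0 : ℝ) ≤ 1 + Real.log m)]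
  have h5 : (E : ℝ) ^ (1 / ((1 : ℕ) : ℝ)) = E := by
    rw [Nat.cast_one, div_one, Real.rpow_one]
  rw [h5] at hle
  rw [div_le_iff₀ hB0]
  calc c ≤ (E : ℝ) * Real.log (3 * m * E) ^ C * (N * h) := hle
    _ ≤ M * (2 * (1 + Real.log M) * (1 + Real.log m)) ^ C * (D * h) := by
        refine mul_le_mul (mul_le_mul hEMr (pow_le_pow_left₀ h2 h4 C) (pow_nonneg h2 _) (by linarith))
          (mul_le_mul_of_nonneg_right hNDr hh) (mul_nonneg (Nat.cast_nonneg _) hh) ?_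
        exact mul_nonneg (by linarith) (pow_nonneg (by positivity) _)
    _ = (1 + Real.log m) ^ C * (D * h) * B := by
        rw [hB, mul_pow (2 * (1 + Real.log M))]
        ring

end Pool.Agent.H72.GX
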