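import Pool.Agent.H72.GX.Mm
import Pool.Agent.H72.GX.Kum
import Pool.Agent.H72.GX.Num
import Pool.Agent.H28.PT4.HpL

/-!
# THEOREM GX: the exact inequality for points whose Galois closure has polynomially bounded degree

`gx`: `K` a number field, `Λ` finitely generated, `S` a finite set of primes, `A ≥ 0`. There are `C` and `c > 0` such that for all `m ≥ 1`, all `K ≤ L ≤ Nm K Λ S m` and all `α` outside the saturation of `Λ`: if the field generated by the conjugates of `α` over `L` has degree at most `[L(α):L]^A` over `L`, then `c ≤ (1 + log m)^C [L(α):L] h(α)`.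
PROOF: think note of helper72, Dec 4, 06:50.
-/

set_option autoImplicit false
set_option linter.unusedSectionVars false

open NumberField IntermediateField

namespace Pool.Agent.H72.GX

open Pool.Agent.H11.TS Pool.Agent.H28.PT4 Pool.Agent.H33.PT Pool.Agent.H11.TH

/-- the saturation -/
def satG {B : Type} [CommGroup B] (Λ : Subgroup B) : Subgroup B where
  carrier := {x | ∃ m : ℕ, 1 ≤ m ∧ x ^ m ∈ Λ}
  one_mem' := ⟨1, le_rfl, by rw [one_pow]; exact Λ.one_mem⟩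
  mul_mem' := by
    rintro x y ⟨i, hi, hx⟩ ⟨j, hj, hy⟩
    refine ⟨i * j, Nat.mul_pos hi hj, ?_⟩
    rw [mul_pow, pow_mul, mul_comm i j, pow_mul]
    exact Λ.mul_mem (Λ.pow_mem hx _) (Λ.pow_mem hy _)
  inv_mem' := by
    rintro x ⟨i, hi, hx⟩
    exact ⟨i, hi, by rw [inv_pow]; exact Λ.inv_mem hx⟩

theorem mem_satG {B : Type} [CommGroup B] {Λ : Subgroup B} {x : B} :
    x ∈ satG Λ ↔ ∃ m : ℕ, 1 ≤ m ∧ x ^ m ∈ Λ := Iff.rfl

theorem satG_sat {B : Type} [CommGroup B] (Λ : Subgroup B) (n : ℤ) (x : B) (hn : n ≠ 0)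
    (h : x ^ n ∈ satG Λ) : x ∈ satG Λ := by
  have h1 : x ^ n.natAbs ∈ satG Λ := by
    rcases Int.natAbs_eq n with h2 | h2
    · rw [h2, zpow_natCast] at h
      exact h
    · rw [h2, zpow_neg, zpow_natCast] at h
      have := (satG Λ).inv_mem h
      rwa [inv_inv] at this
  obtain ⟨m, hm, h3⟩ := h1
  refine ⟨n.natAbs * m, Nat.mul_pos (Int.natAbs_pos.2 hn) hm, ?_⟩
  rw [pow_mul]
  exact h3

variable {K Ω : Type} [Field K] [NumberField K] [Field Ω] [CharZero Ω] [IsAlgClosed Ω]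
  [Algebra K Ω] [IsGalois K Ω]

theorem mem_Nm_of (Λ : Subgroup Ωˣ) (S : Finset ℕ) (m : ℕ) (x : Ωˣ) (hx : x ∈ SRm Λ S m) :
    (x : Ω) ∈ Nm K Λ S m := IntermediateField.subset_adjoin K _ ⟨x, hx, rfl⟩

theorem lam_Nm (Λ : Subgroup Ωˣ) (S : Finset ℕ) (m : ℕ) (x : Ωˣ) (hx : x ∈ Λ) :
    (x : Ω) ∈ Nm K Λ S m :=
  mem_Nm_of Λ S m x ⟨1, le_rfl, fun q hq h => absurd (Nat.dvd_one.1 h) hq.ne_one, 1,
    ⟨1, le_rfl, one_pow _⟩, by rw [mul_one, mul_one]; exact Λ.pow_mem hx m⟩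

theorem mu_Nm (Λ : Subgroup Ωˣ) (S : Finset ℕ) (m : ℕ) (x : Ωˣ) (j : ℕ) (hj : 1 ≤ j)
    (hx : x ^ j = 1) : (x : Ω) ∈ Nm K Λ S m :=
  mem_Nm_of Λ S m x ⟨1, le_rfl, fun q hq h => absurd (Nat.dvd_one.1 h) hq.ne_one, (x ^ (m * 1))⁻¹,
    ⟨j, hj, by rw [inv_pow, ← pow_mul, mul_comm, pow_mul, hx, one_pow, inv_one]⟩,
    by rw [mul_inv_cancel]; exact Λ.one_mem⟩

/-- elements of the saturation are moved by roots of unity -/
theorem fix_sat (Λ : Subgroup Ωˣ) (S : Finset ℕ) (m : ℕ) (g : (Nm K Λ S m).fixingSubgroup)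
    (x : Ωˣ) (hx : x ∈ satG Λ) : ∃ j : ℕ, 1 ≤ j ∧ (g • x / x) ^ j = 1 := by
  obtain ⟨j, hj, h⟩ := hx
  refine ⟨j, hj, ?_⟩
  have h1 : g • x ^ j = x ^ j := by
    apply Units.ext
    rw [smul_val]
    exact (IntermediateField.mem_fixingSubgroup_iff _ _).1 g.2 _ (lam_Nm Λ S m _ h)
  rw [div_pow, ← smul_pow', h1, div_self']

theorem smul_sat (Λ : Subgroup Ωˣ) (S : Finset ℕ) (m : ℕ) (g : (Nm K Λ S m).fixingSubgroup)
    (x : Ωˣ) (hx : x ∈ satG Λ) : g • x ∈ satG Λ := by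
  obtain ⟨j, hj, h⟩ := hx
  refine ⟨j, hj, ?_⟩
  have h1 : g • x ^ j = x ^ j := by
    apply Units.ext
    rw [smul_val]
    exact (IntermediateField.mem_fixingSubgroup_iff _ _).1 g.2 _ (lam_Nm Λ S m _ h)
  rw [← smul_pow', h1]
  exact h

theorem degP_pos (L : IntermediateField K Ω) {k : ℕ} (γ : Fin k → Ωˣ) : 1 ≤ degP L γ := by
  rw [degP_eq]
  exact dgT_pos L _

theorem degP_anti {L L' : IntermediateField K Ω} (h : L ≤ L') {k : ℕ} (γ : Fin k → Ωˣ) :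
    degP L' γ ≤ degP L γ := by
  rw [degP_eq, degP_eq]
  refine Set.ncard_le_ncard ?_ (orbT_finite L _)
  rintro _ ⟨ρ, hρ, rfl⟩
  exact ⟨ρ, fun z hz => hρ z (h hz), rfl⟩

theorem degP_le_F {L : IntermediateField K Ω} (F : IntermediateField L Ω) [FiniteDimensional L F]
    {k : ℕ} (γ : Fin k → Ωˣ) (h : ∀ i, (γ i : Ω) ∈ F) : degP L γ ≤ Module.finrank L F := by
  have hle : IntermediateField.adjoin L (Set.range fun i => (γ i : Ω)) ≤ F := by
    rw [IntermediateField.adjoin_le_iff]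
    rintro _ ⟨i, rfl⟩
    exact h i
  exact LinearMap.finrank_le_finrank_of_injective
    (f := (IntermediateField.inclusion hle).toLinearMap) (IntermediateField.inclusion hle).injective

theorem degP_one (L : IntermediateField K Ω) (α : Ωˣ) :
    degP L (fun _ : Fin 1 => α) = (minpoly L (α : Ω)).natDegree := by
  unfold degP
  have h1 : (Set.range fun _ : Fin 1 => (α : Ω)) = {(α : Ω)} := Set.range_const
  rw [h1]
  exact IntermediateField.adjoin.finrank (Algebra.IsIntegral.isIntegral (R := L) (α : Ω))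

/-- THEOREM GX, with a field `F` containing the conjugates -/
theorem gxF (Λ : Subgroup Ωˣ) (hΛ : Λ.FG) (S : Finset ℕ) (hS : ∀ p ∈ S, p.Prime) (A : ℕ) :
    ∃ (C : ℕ) (c : ℝ), 0 < c ∧ ∀ m : ℕ, 1 ≤ m → ∀ L : IntermediateField K Ω, L ≤ Nm K Λ S m →
      ∀ α : Ωˣ, (∀ j : ℕ, 1 ≤ j → α ^ j ∉ Λ) → ∀ (F : IntermediateField L Ω)
      (_ : FiniteDimensional L F),
      (∀ ρ : Ω ≃ₐ[K] Ω, (∀ z ∈ L, ρ z = z) → ρ (α : Ω) ∈ F) →
      Module.finrank L F ≤ (minpoly L (α : Ω)).natDegree ^ A →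
      c ≤ (1 + Real.log m) ^ C * ((minpoly L (α : Ω)).natDegree * absLogHeight₁ (α : Ω)) := by
  classical
  obtain ⟨C₁, c₁, hc₁, h₁⟩ := hpt_L (K := K) Λ hΛ S hS (A + 1) (by omega)
  obtain ⟨C₂, c₂, hc₂, h₂⟩ := hpt_L (K := K) Λ hΛ S hS 1 le_rfl
  obtain ⟨M, hM⟩ := orb_mul (A + 1)
  obtain ⟨c₃, hc₃, h₃⟩ := num_ind A C₁ c₁ hc₁
  obtain ⟨c₄, hc₄, h₄⟩ := num_dep M C₂ c₂ hc₂
  refine ⟨max C₁ C₂, min c₃ c₄, lt_min hc₃ hc₄, ?_⟩
  intro m hm L hL α hα F hF hconj hdeg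
  obtain ⟨D, hD⟩ : ∃ D : ℕ, D = (minpoly L (α : Ω)).natDegree := ⟨_, rfl⟩
  have hD' : degP L (fun _ : Fin 1 => α) = D := by rw [hD]; exact degP_one L α
  rw [← hD] at hdeg ⊢
  have hD1 : 1 ≤ D := by
    rw [← hD']
    exact degP_pos L _
  have hh0 : 0 ≤ absLogHeight₁ (α : Ω) := Pool.Agent.H72.PB.ht_nonneg _
  have hmr : (1 : ℝ) ≤ m := by exact_mod_cast hm
  have hlm := Real.log_nonneg hmr
  have hX0 : 0 ≤ (D : ℝ) * absLogHeight₁ (α : Ω) := mul_nonneg (Nat.cast_nonneg _) hh0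
  have hup : ∀ C : ℕ, C ≤ max C₁ C₂ → (1 + Real.log m) ^ C * (D * absLogHeight₁ (α : Ω)) ≤
      (1 + Real.log m) ^ (max C₁ C₂) * (D * absLogHeight₁ (α : Ω)) := fun C hC =>
    mul_le_mul_of_nonneg_right (pow_le_pow_right₀ (by linarith) hC) hX0
  obtain ⟨L', hL'⟩ : ∃ L' : IntermediateField K Ω, L' = Nm K Λ S m := ⟨_, rfl⟩
  by_cases hno : ∃ v : Fin (A + 1) → Ωˣ, (∀ i, v i ∈ OO (Nm K Λ S m) α) ∧
      ∀ a : Fin (A + 1) → ℤ, ∏ i, v i ^ a i ∈ satG Λ → a = 0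
  · obtain ⟨v, hv, hvi⟩ := hno
    have hind : IndM Λ v := fun a ha j hj h => ha (hvi a ⟨j, hj, h⟩)
    have hht : ∀ i, absLogHeight₁ ((v i : Ωˣ) : Ω) = absLogHeight₁ (α : Ω) := by
      intro i
      obtain ⟨g, hg⟩ := hv i
      rw [← hg]
      exact Pool.Agent.H72.PB.height_map (g : Ω ≃ₐ[K] Ω) (α : Ω)
    have h5 := h₁ m hm v hind (absLogHeight₁ (α : Ω)) (fun i => (hht i).le)
    have hE : degP (Nm K Λ S m) v ≤ D ^ A := by
      refine (degP_anti hL v).trans ((degP_le_F F v fun i => ?_).trans hdeg)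
      obtain ⟨g, hg⟩ := hv i
      rw [← hg]
      exact hconj g fun z hz => (IntermediateField.mem_fixingSubgroup_iff _ _).1 g.2 z (hL hz)
    have h6 := h₃ m D (degP (Nm K Λ S m) v) (absLogHeight₁ (α : Ω)) hm hD1 (degP_pos _ _) hE hh0 h5
    exact (min_le_left _ _).trans (h6.trans (hup C₁ (le_max_left _ _)))
  · have h5 := hM Ωˣ (Nm K Λ S m).fixingSubgroup (satG Λ) (satG_sat Λ) (smul_sat Λ S m)
      (OO (Nm K Λ S m) α) (OO_fin _ α) (fun g x hx => smul_OO _ α g x hx) hno α (mem_OO _ α)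
    obtain ⟨N, hN1, hND, hNM⟩ := kum (Nm K Λ S m) (satG Λ) (fun x j hj hx => mu_Nm Λ S m x j hj hx)
      (fun x j hj hx => ⟨j, hj, by rw [hx]; exact Λ.one_mem⟩) (smul_sat Λ S m) (fix_sat Λ S m) α M h5
    have hind : IndM Λ (fun _ : Fin 1 => α ^ N) := by
      intro a ha j hj h
      have ha0 : a 0 ≠ 0 := fun h0 => ha (by
        funext i
        rw [Subsingleton.elim i 0, h0]
        rfl)
      have h6 : (α ^ N) ^ (a 0) ∈ satG Λ := by
        refine ⟨j, hj, ?_⟩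
        rw [Fin.prod_univ_one] at h
        exact h
      have h7 : α ^ ((N : ℤ) * a 0) ∈ satG Λ := by
        rw [zpow_mul, zpow_natCast]
        exact h6
      obtain ⟨i, hi, h8⟩ := satG_sat Λ _ α (mul_ne_zero (by exact_mod_cast (by omega : N ≠ 0)) ha0) h7
      exact hα i hi h8
    have hpow : absLogHeight₁ (((α ^ N : Ωˣ)) : Ω) = N * absLogHeight₁ (α : Ω) := by
      rw [Units.val_pow_eq_pow_val]
      exact Pool.Agent.H4.RR.absLogHeight_pow Ω _ (Pool.Agent.H72.PB.int_all K _) N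
    have h6 := h₂ m hm (fun _ : Fin 1 => α ^ N) hind (N * absLogHeight₁ (α : Ω)) (fun _ => hpow.le)
    have hND' : N ≤ D := hND.trans (by rw [← hD']; exact degP_anti hL _)
    have h7 := h₄ m D N (degP (Nm K Λ S m) (fun _ : Fin 1 => α ^ N)) (absLogHeight₁ (α : Ω)) hm hND'
      (degP_pos _ _) hNM hh0 h6
    exact (min_le_right _ _).trans (h7.trans (hup C₂ (le_max_right _ _)))

/-- THEOREM GX -/
theorem gx (Λ : Subgroup Ωˣ) (hΛ : Λ.FG) (S : Finset ℕ) (hS : ∀ p ∈ S, p.Prime) (A : ℕ) :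
    ∃ (C : ℕ) (c : ℝ), 0 < c ∧ ∀ m : ℕ, 1 ≤ m → ∀ L : IntermediateField K Ω, L ≤ Nm K Λ S m →
      ∀ α : Ωˣ, (∀ j : ℕ, 1 ≤ j → α ^ j ∉ Λ) →
      Module.finrank L (IntermediateField.adjoin L ((minpoly L (α : Ω)).rootSet Ω)) ≤
        (minpoly L (α : Ω)).natDegree ^ A →
      c ≤ (1 + Real.log m) ^ C * ((minpoly L (α : Ω)).natDegree * absLogHeight₁ (α : Ω)) := by
  obtain ⟨C, c, hc, h⟩ := gxF (K := K) Λ hΛ S hS A
  refine ⟨C, c, hc, fun m hm L hL α hα hdeg => ?_⟩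
  have hint : IsIntegral L (α : Ω) := Algebra.IsIntegral.isIntegral (R := L) (α : Ω)
  have hfin : FiniteDimensional L (IntermediateField.adjoin L ((minpoly L (α : Ω)).rootSet Ω)) := by
    have : Finite ((minpoly L (α : Ω)).rootSet Ω) := ((minpoly L (α : Ω)).rootSet_finite Ω).to_subtype
    exact IntermediateField.finiteDimensional_adjoin fun x _ => Algebra.IsIntegral.isIntegral (R := L) x
  refine h m hm L hL α hα _ hfin (fun ρ hρ => ?_) hdeg
  refine IntermediateField.subset_adjoin L _ ?_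
  rw [Polynomial.mem_rootSet]
  refine ⟨minpoly.ne_zero hint, ?_⟩
  let ρ' : Ω →ₐ[L] Ω := { (ρ : Ω →+* Ω) with commutes' := fun z => hρ z z.2 }
  have h1 : Polynomial.aeval (ρ' (α : Ω)) (minpoly L (α : Ω)) = 0 := by
    rw [Polynomial.aeval_algHom_apply, minpoly.aeval, map_zero]
  exact h1

/-- the exact inequality for Galois points -/
theorem gx_gal (Λ : Subgroup Ωˣ) (hΛ : Λ.FG) (S : Finset ℕ) (hS : ∀ p ∈ S, p.Prime) :
    ∃ (C : ℕ) (c : ℝ), 0 < c ∧ ∀ m : ℕ, 1 ≤ m → ∀ L : IntermediateField K Ω, L ≤ Nm K Λ S m →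
      ∀ α : Ωˣ, (∀ j : ℕ, 1 ≤ j → α ^ j ∉ Λ) →
      (minpoly L (α : Ω)).rootSet Ω ⊆ (IntermediateField.adjoin L {(α : Ω)} : Set Ω) →
      c ≤ (1 + Real.log m) ^ C * ((minpoly L (α : Ω)).natDegree * absLogHeight₁ (α : Ω)) := by
  obtain ⟨C, c, hc, h⟩ := gx (K := K) Λ hΛ S hS 1
  refine ⟨C, c, hc, fun m hm L hL α hα hsub => h m hm L hL α hα ?_⟩
  have hint : IsIntegral L (α : Ω) := Algebra.IsIntegral.isIntegral (R := L) (α : Ω)
  have hfin : FiniteDimensional L (IntermediateField.adjoin L {(α : Ω)}) :=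
    IntermediateField.adjoin.finiteDimensional hint
  rw [pow_one, ← IntermediateField.adjoin.finrank hint]
  have hle : IntermediateField.adjoin L ((minpoly L (α : Ω)).rootSet Ω) ≤
      IntermediateField.adjoin L {(α : Ω)} := by
    rw [IntermediateField.adjoin_le_iff]
    exact hsub
  exact LinearMap.finrank_le_finrank_of_injective
    (f := (IntermediateField.inclusion hle).toLinearMap) (IntermediateField.inclusion hle).injective

end Pool.Agent.H72.GX
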