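import Pool.Agent.H20.FV.StabA

/-!
# THEOREM GX: orbits in torsion free groups of small rank are bounded

`orb_add`: a group `G` acts on a torsion free abelian group `A` and on a finite subset `X` of `A` without `k` linearly independent elements; then the orbits of the elements of `X` have at most `M(k)` elements (Minkowski's theorem on the finite subgroups of `GL_r(ℤ)`).
-/

set_option autoImplicit false
set_option linter.unusedSectionVars false

namespace Pool.Agent.H72.GX

/-- the rank of the group generated by `X` is less than `k` -/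
theorem rank_lt (k : ℕ) (A : Type) [AddCommGroup A] (htf : ∀ (n : ℤ) (x : A), n ≠ 0 → n • x = 0 → x = 0)
    (X : Set A) (hXf : X.Finite) (hno : ¬ ∃ v : Fin k → A, (∀ i, v i ∈ X) ∧ LinearIndependent ℤ v) :
    Module.finrank ℤ (Submodule.span ℤ X) < k := by
  classical
  have hXfin : Finite X := hXf.to_subtype
  obtain ⟨s, hs, hmax⟩ := exists_maximal_linearIndepOn ℤ (fun x : X => (x : A))
  have hsfin : s.Finite := Set.toFinite s
  have : Fintype s := hsfin.fintype
  have hli : LinearIndependent ℤ (fun x : s => ((x : X) : A)) := hs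
  have hcard : Fintype.card s < k := by
    by_contra hcon
    push Not at hcon
    apply hno
    obtain ⟨f⟩ : Nonempty (Fin k ↪ s) := by
      rw [Function.Embedding.nonempty_iff_card_le, Fintype.card_fin]
      exact hcon
    exact ⟨fun i => ((f i : X) : A), fun i => (f i : X).2, hli.comp f f.injective⟩
  -- a common multiplier
  have hN : ∀ x : X, ∃ a : ℤ, a ≠ 0 ∧ a • (x : A) ∈ Submodule.span ℤ (Set.range fun x : s => ((x : X) : A)) := by
    intro x
    by_cases hx : x ∈ s
    · exact ⟨1, one_ne_zero, by
        rw [one_smul]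
        exact Submodule.subset_span ⟨⟨x, hx⟩, rfl⟩⟩
    · obtain ⟨a, ha, h⟩ := hmax x hx
      refine ⟨a, ha, ?_⟩
      have h1 : (Set.range fun x : s => ((x : X) : A)) = (fun x : X => (x : A)) '' s := by
        ext y
        constructor
        · rintro ⟨z, rfl⟩
          exact ⟨z, z.2, rfl⟩
        · rintro ⟨z, hz, rfl⟩
          exact ⟨⟨z, hz⟩, rfl⟩
      rw [h1]
      exact h
  choose a ha0 ha using hN
  have : Fintype X := Fintype.ofFinite X
  obtain ⟨n, hn⟩ : ∃ n : ℤ, n = ∏ x : X, a x := ⟨_, rfl⟩
  have hn0 : n ≠ 0 := by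
    rw [hn]
    exact Finset.prod_ne_zero_iff.2 fun x _ => ha0 x
  obtain ⟨N₀, hN₀⟩ : ∃ N₀ : Submodule ℤ A, N₀ = Submodule.span ℤ (Set.range fun x : s => ((x : X) : A)) := ⟨_, rfl⟩
  rw [← hN₀] at ha
  have hmem : ∀ y ∈ Submodule.span ℤ X, n • y ∈ N₀ := by
    intro y hy
    induction hy using Submodule.span_induction with
    | mem y hy =>
      obtain ⟨c, hc⟩ : a ⟨y, hy⟩ ∣ n := by
        rw [hn]
        exact Finset.dvd_prod_of_mem a (Finset.mem_univ _)
      rw [hc, mul_comm, mul_smul]
      exact N₀.smul_mem c (ha ⟨y, hy⟩)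
    | zero =>
      rw [smul_zero]
      exact N₀.zero_mem
    | add y z _ _ h1 h2 =>
      rw [smul_add]
      exact N₀.add_mem h1 h2
    | smul c y _ h =>
      rw [smul_comm]
      exact N₀.smul_mem c h
  let f : Submodule.span ℤ X →ₗ[ℤ] N₀ :=
    { toFun := fun y => ⟨n • (y : A), hmem y y.2⟩
      map_add' := fun y z => Subtype.ext (smul_add n (y : A) (z : A))
      map_smul' := fun c y => Subtype.ext (smul_comm n c (y : A)) }
  have hf : Function.Injective f := by
    intro y z h
    have h1 : n • (y : A) = n • (z : A) := congrArg Subtype.val h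
    apply Subtype.ext
    have h2 := htf n ((y : A) - z) hn0 (by rw [smul_sub, h1, sub_self])
    exact sub_eq_zero.1 h2
  have hfinN : Module.Finite ℤ N₀ := by
    rw [hN₀]
    exact Module.Finite.span_of_finite ℤ (Set.finite_range _)
  have h3 := LinearMap.finrank_le_finrank_of_injective hf
  have h4 : Module.finrank ℤ N₀ = Fintype.card s := by
    rw [hN₀]
    exact finrank_span_eq_card hli
  omega

theorem orb_add (k : ℕ) : ∃ M : ℕ, ∀ (A : Type) [AddCommGroup A]
    (_ : ∀ (n : ℤ) (x : A), n ≠ 0 → n • x = 0 → x = 0) (G : Type) [Group G]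
    [DistribMulAction G A] (X : Set A) (_ : X.Finite) (_ : ∀ g : G, ∀ x ∈ X, g • x ∈ X)
    (_ : ¬ ∃ v : Fin k → A, (∀ i, v i ∈ X) ∧ LinearIndependent ℤ v) (x : A) (_ : x ∈ X),
    (Set.range fun g : G => g • x).ncard ≤ M := by
  classical
  choose m hm using Pool.Agent.H20.FV.stabA
  refine ⟨(Finset.range k).sup m, fun A _ htf G _ _ X hXf hX hno x hx => ?_⟩
  have hlt := rank_lt k A htf X hXf hno
  obtain ⟨r, hr⟩ : ∃ r : ℕ, r = Module.finrank ℤ (Submodule.span ℤ X) := ⟨_, rfl⟩
  rw [← hr] at hlt
  refine le_trans ?_ (Finset.le_sup (f := m) (Finset.mem_range.2 hlt))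
  have hfin : Module.Finite ℤ (Submodule.span ℤ X) := Module.Finite.span_of_finite ℤ hXf
  have htors : Module.IsTorsionFree ℤ (Submodule.span ℤ X) := by
    refine ⟨fun n hn y z h => ?_⟩
    have hn0 : n ≠ 0 := hn.ne_zero
    have h1 : n • (y : A) = n • (z : A) := congrArg Subtype.val h
    apply Subtype.ext
    exact sub_eq_zero.1 (htf n ((y : A) - z) hn0 (by rw [smul_sub, h1, sub_self]))
  have hfree : Module.Free ℤ (Submodule.span ℤ X) := inferInstance
  let b : Module.Basis (Fin r) ℤ (Submodule.span ℤ X) :=
    (Module.finBasis ℤ (Submodule.span ℤ X)).reindex (finCongr hr.symm)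
  -- the action on the span
  have hmem : ∀ (g : G), ∀ y ∈ Submodule.span ℤ X, g • y ∈ Submodule.span ℤ X := by
    intro g y hy
    induction hy using Submodule.span_induction with
    | mem y hy => exact Submodule.subset_span (hX g y hy)
    | zero =>
      rw [smul_zero]
      exact Submodule.zero_mem _
    | add y z _ _ h1 h2 =>
      rw [smul_add]
      exact Submodule.add_mem _ h1 h2
    | smul c y _ h =>
      have : g • (c • y) = c • (g • y) := (DistribSMul.toAddMonoidHom A g).map_zsmul c y
      rw [this]
      exact Submodule.smul_mem _ c h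
  let Φ₀ : G →* Module.End ℤ (Submodule.span ℤ X) :=
    { toFun := fun g =>
        { toFun := fun y => ⟨g • (y : A), hmem g y y.2⟩
          map_add' := fun y z => Subtype.ext (smul_add g (y : A) (z : A))
          map_smul' := fun c y => Subtype.ext
            ((DistribSMul.toAddMonoidHom A g).map_zsmul c (y : A)) }
      map_one' := by
        apply LinearMap.ext
        intro y
        exact Subtype.ext (one_smul G (y : A))
      map_mul' := fun g h => by
        apply LinearMap.ext
        intro y
        exact Subtype.ext (mul_smul g h (y : A)) }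
  let Φ : G →* GL (Fin r) ℤ :=
    (Units.map (LinearMap.toMatrixAlgEquiv b).toAlgHom.toMonoidHom).comp Φ₀.toHomUnits
  have hΦ : ∀ g h : G, Φ g = Φ h ↔ Φ₀ g = Φ₀ h := by
    intro g h
    constructor
    · intro e
      have e1 := congrArg Units.val e
      exact (LinearMap.toMatrixAlgEquiv b).injective e1
    · intro e
      apply Units.ext
      exact congrArg (LinearMap.toMatrixAlgEquiv b) e
  -- equality is determined on `X`
  have hdet : ∀ g h : G, (∀ y ∈ X, g • y = h • y) → Φ g = Φ h := by
    intro g h e
    rw [hΦ]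
    apply LinearMap.ext
    rintro ⟨y, hy⟩
    apply Subtype.ext
    show g • y = h • y
    induction hy using Submodule.span_induction with
    | mem y hy => exact e y hy
    | zero => rw [smul_zero, smul_zero]
    | add y z _ _ h1 h2 => rw [smul_add, smul_add, h1, h2]
    | smul c y _ h' =>
      have e1 : g • (c • y) = c • (g • y) := (DistribSMul.toAddMonoidHom A g).map_zsmul c y
      have e2 : h • (c • y) = c • (h • y) := (DistribSMul.toAddMonoidHom A h).map_zsmul c y
      rw [e1, e2, h']
  have hXfin : Finite X := hXf.to_subtype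
  have hrange : Finite Φ.range := by
    choose u hu using fun y : Φ.range => y.2
    refine Finite.of_injective (β := X → X) (fun y => fun x => ⟨u y • (x : A), hX _ _ x.2⟩) ?_
    intro y z h
    apply Subtype.ext
    rw [← hu y, ← hu z]
    refine hdet _ _ fun x hx => ?_
    exact congrArg Subtype.val (congrFun h ⟨x, hx⟩)
  refine le_trans ?_ (hm r Φ.range hrange)
  -- the orbit
  choose u hu using fun y : Φ.range => y.2
  have hsub : (Set.range fun g : G => g • x) ⊆ Set.range fun y : Φ.range => u y • x := by
    rintro _ ⟨g, rfl⟩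
    refine ⟨⟨Φ g, g, rfl⟩, ?_⟩
    have h1 := hu ⟨Φ g, g, rfl⟩
    have h2 := (hΦ _ _).1 h1
    have h3 := LinearMap.congr_fun h2 ⟨x, Submodule.subset_span hx⟩
    exact congrArg Subtype.val h3
  calc (Set.range fun g : G => g • x).ncard ≤ (Set.range fun y : Φ.range => u y • x).ncard :=
        Set.ncard_le_ncard hsub (Set.finite_range _)
    _ ≤ Nat.card Φ.range := by
        rw [← Set.image_univ]
        refine (Set.ncard_image_le Set.finite_univ).trans ?_
        rw [Set.ncard_univ]

end Pool.Agent.H72.GX
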