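import Pool.Agent.H72.GX.Mk

/-!
# THEOREM GX: orbits modulo a saturated subgroup

`orb_mul`: `orb_add` for `B / T`, `T` a saturated subgroup of a commutative group `B`, stable under `G`.
-/

set_option autoImplicit false
set_option linter.unusedSectionVars false

namespace Pool.Agent.H72.GX

section

variable {B G : Type} [CommGroup B] [Group G] [MulDistribMulAction G B] (T : Subgroup B)
  (hGT : ∀ g : G, ∀ x ∈ T, g • x ∈ T)

/-- the action on the quotient -/
def qmap (g : G) : B ⧸ T →* B ⧸ T :=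
  QuotientGroup.map T T (MulDistribMulAction.toMonoidHom B g) (fun x hx => hGT g x hx)

theorem qmap_mk (g : G) (x : B) : qmap T hGT g (x : B ⧸ T) = ((g • x : B) : B ⧸ T) := rfl

/-- the action on the additive form of the quotient -/
def qact : DistribMulAction G (Additive (B ⧸ T)) where
  smul g y := Additive.ofMul (qmap T hGT g (Additive.toMul y))
  one_smul y := by
    obtain ⟨x, hx⟩ := QuotientGroup.mk_surjective (Additive.toMul y)
    show Additive.ofMul (qmap T hGT 1 (Additive.toMul y)) = y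
    rw [← hx, qmap_mk, one_smul, hx]
    rfl
  mul_smul g h y := by
    obtain ⟨x, hx⟩ := QuotientGroup.mk_surjective (Additive.toMul y)
    show Additive.ofMul (qmap T hGT (g * h) (Additive.toMul y)) =
      Additive.ofMul (qmap T hGT g (qmap T hGT h (Additive.toMul y)))
    rw [← hx, qmap_mk, qmap_mk, qmap_mk, mul_smul]
  smul_zero g := congrArg Additive.ofMul (map_one (qmap T hGT g))
  smul_add g y z := congrArg Additive.ofMul (map_mul (qmap T hGT g) (Additive.toMul y) (Additive.toMul z))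

end

theorem orb_mul (k : ℕ) : ∃ M : ℕ, ∀ (B : Type) [CommGroup B] (G : Type) [Group G]
    [MulDistribMulAction G B] (T : Subgroup B) (_ : ∀ (n : ℤ) (x : B), n ≠ 0 → x ^ n ∈ T → x ∈ T)
    (_ : ∀ g : G, ∀ x ∈ T, g • x ∈ T) (X : Set B) (_ : X.Finite) (_ : ∀ g : G, ∀ x ∈ X, g • x ∈ X)
    (_ : ¬ ∃ v : Fin k → B, (∀ i, v i ∈ X) ∧ ∀ a : Fin k → ℤ, ∏ i, v i ^ a i ∈ T → a = 0)
    (x : B) (_ : x ∈ X), (Set.range fun g : G => ((g • x : B) : B ⧸ T)).ncard ≤ M := by
  obtain ⟨M, hM⟩ := orb_add k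
  refine ⟨M, fun B _ G _ _ T hsat hGT X hXf hX hno x hx => ?_⟩
  let inst : DistribMulAction G (Additive (B ⧸ T)) := qact T hGT
  have hsmul : ∀ (g : G) (y : B), g • (Additive.ofMul (y : B ⧸ T)) =
      Additive.ofMul ((g • y : B) : B ⧸ T) := fun g y => rfl
  have h := hM (Additive (B ⧸ T)) ?_ G ((fun y : B => Additive.ofMul (y : B ⧸ T)) '' X)
    (hXf.image _) ?_ ?_ (Additive.ofMul (x : B ⧸ T)) ⟨x, hx, rfl⟩
  · exact h
  · intro n y hn hy
    obtain ⟨z, hz⟩ := QuotientGroup.mk_surjective (Additive.toMul y)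
    have h1 : ((z ^ n : B) : B ⧸ T) = 1 := by
      rw [QuotientGroup.mk_zpow, hz]
      exact hy
    have h2 := hsat n z hn ((QuotientGroup.eq_one_iff _).1 h1)
    have h3 : (z : B ⧸ T) = 1 := (QuotientGroup.eq_one_iff _).2 h2
    rw [hz] at h3
    exact h3
  · rintro g _ ⟨y, hy, rfl⟩
    exact ⟨g • y, hX g y hy, rfl⟩
  · rintro ⟨v, hv, hli⟩
    choose w hwX hw using hv
    apply hno
    refine ⟨w, hwX, fun a ha => ?_⟩
    have h1 : ∑ i, a i • v i = 0 := by
      have h2 : ((∏ i, w i ^ a i : B) : B ⧸ T) = 1 := (QuotientGroup.eq_one_iff _).2 ha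
      have h3 : ∑ i, a i • v i = Additive.ofMul ((∏ i, w i ^ a i : B) : B ⧸ T) := by
        have h4 : ((∏ i, w i ^ a i : B) : B ⧸ T) = ∏ i, (w i : B ⧸ T) ^ a i := by
          rw [← QuotientGroup.mk'_apply, map_prod]
          refine Finset.prod_congr rfl fun i _ => ?_
          rw [map_zpow]
          rfl
        rw [h4, ofMul_prod]
        refine Finset.sum_congr rfl fun i _ => ?_
        rw [← hw i]
        rfl
      rw [h3, h2]
      rfl
    funext i
    exact Fintype.linearIndependent_iff.1 hli a h1 i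

end Pool.Agent.H72.GX
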